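import Pool.Agent.Y335.FL.CircEx
import Pool.Agent.R926.SC.PetFin
import Pool.Agent.R926.SC.PetMix
import Pool.Agent.TH362.TF.Multi
import Pool.Agent.TH362.TF.Contr
import Pool.Agent.TH362.TF.Cyc

/-!
# Two cycles: graphs made of few pieces with short ears (MP_e6539c_co)

Let `G` be a multigraph without isthmuses and let `C_1, ..., C_m` be sets of edges, such that each
`C_i` has at most four edges outside the union of the earlier ones and no bridge modulo this union
(for example circuits with at most four new edges, or paths with at most four edges whose ends are in
the same component of the union of the earlier ones), or contains two disjoint sets each of which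
connects all that `C_i` connects modulo this union (for example if `C_i` is the edge set of a
4-edge-connected subgraph).  Let `F` be their union.  If at most sixteen components of the graph
`(V, F)` have an odd number of boundary edges in `G`, then the edge set of `G` is the union of two
cycles, or a component of `G` can be contracted to the Petersen graph.

For example, this holds if all but sixteen vertices of `G` are covered by circuits with at most four
edges whose union is connected, for all graphs with an ear decomposition with ears of length at most
four, if the vertex set has a partition into sets which induce 4-edge-connected graphs, at most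
sixteen of them with an odd boundary, and (`m = 0`) for the graphs with at most sixteen vertices of
odd degree (the starting result `SixteenOddVertices`).  There is no condition on the degrees, on the
order or on small cuts.

Proof.  The sets `C_m, ..., C_1` are contracted in this order, circuit by circuit.  A circuit with at
most three edges can be contracted as there are four elements in the group of the flows.  A circuit
`e_0 e_1 e_2 e_3` can be contracted by an exchange: the difficult case is when the four edges have
the four different values; in the cycle space element given by the functional which vanishes on the
value of `e_2 - e_0` we take a circuit through `e_1`, and change the flow along it, or, if it contains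
`e_3`, along the circuit formed by an arc of it and one or two edges of the contracted circuit.  A piece
with two disjoint connectors can be contracted as in Jaeger's proof for 4-edge-connected graphs. Then
the flow of the contracted graph, which exists by the theorem on sixteen vertices of odd degree of
the starting library `TH362/TF`, is lifted.
-/

set_option autoImplicit false

namespace Pool.Agent.Results.MP_e6539c_co.ChainsOfShortEars

open Pool.Agent.TH362.Multi

/-- The edges with exactly one end in `Y`. -/
def boundary {V E : Type} [DecidableEq V] [Fintype E] (s t : E → V) (Y : Finset V) : Finset E :=
  Finset.univ.filter (fun e => ¬ (s e ∈ Y ↔ t e ∈ Y))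

/-- The component of `x` in the graph with the vertices `V` and the edges `F`. -/
noncomputable def component {V E : Type} [Fintype V] (s t : E → V) (F : Finset E) (x : V) :
    Finset V :=
  open Classical in Finset.univ.filter (fun y =>
    Relation.EqvGen (fun a b => ∃ e ∈ F, s e = a ∧ t e = b) x y)

/-- The union of the sets `C j` with `j < i`. -/
def earlier {E : Type} [DecidableEq E] {m : ℕ} (C : Fin m → Finset E) (i : Fin m) : Finset E :=
  (Finset.univ.filter (fun j => j < i)).biUnion C

/-- `H` can be added to the chain after `F`: either (short) `H` has at most four edges outside `F`
and no bridge modulo `F`: no set `Y` of vertices without boundary edges in `F` has exactly one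
boundary edge in `H`; or (doubly connected) `H` contains two disjoint sets each of which connects,
modulo `F`, whatever `H` connects: every set `Y` of vertices without boundary edges in `F` and with
a boundary edge in `H` has boundary edges in both sets. -/
def Step {V E : Type} [DecidableEq V] [Fintype E] [DecidableEq E] (s t : E → V)
    (F H : Finset E) : Prop :=
  ((H \ F).card ≤ 4 ∧ ∀ Y : Finset V, Disjoint (boundary s t Y) F →
    (boundary s t Y ∩ H).card ≠ 1) ∨
  ∃ T₁ T₂ : Finset E, T₁ ⊆ H ∧ T₂ ⊆ H ∧ Disjoint T₁ T₂ ∧ ∀ Y : Finset V,
    Disjoint (boundary s t Y) F → ¬ Disjoint (boundary s t Y) H →
      ¬ Disjoint (boundary s t Y) T₁ ∧ ¬ Disjoint (boundary s t Y) T₂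

/-- Let `s t : E → V` be a finite multigraph without isthmuses, and `C 0, ..., C (m - 1)` sets of
edges such that each `C i` can be added after the union of the earlier ones (`Step`: at most four new
edges and no bridge, or two disjoint connectors).  If at most sixteen components of the graph with the vertices `V`, whose edges are the elements of the
sets `C i`, have an odd number of boundary edges, then the edge set is the union of two cycles, or a
component of the graph can be contracted to the Petersen graph. -/
theorem result (V E : Type) [Fintype V] [DecidableEq V] [Fintype E] [DecidableEq E]
    (s t : E → V) (hb : ∀ e, ¬ Isthmus s t e) (m : ℕ) (C : Fin m → Finset E)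
    (hC : ∀ i, Step s t (earlier C i) (C i))
    (ho : ((Finset.univ.image (component s t (Finset.univ.biUnion C))).filter
      (fun X => Odd (boundary s t X).card)).card ≤ 16) :
    (∃ C₁ C₂ : Set E, IsCycle s t C₁ ∧ IsCycle s t C₂ ∧ C₁ ∪ C₂ = Set.univ) ∨
      ContractsToPetersen s t := by
  classical
  have h1 := TH362.TF.n1_of s t hb
  have hf := R926.SC.fourM Pool.Agent.Y335.FL.circEx s t m C (R926.SC.st_of s t m C hC) h1
    (fun r q1 q3 => R926.SC.h16_of s t (Finset.univ.biUnion C) ho r q1 q3)
  rcases hf with h | h
  · exact Or.inl (TH362.TF.two_cycles s t h)
  · exact Or.inr (TH362.TF.contracts s t h1 h)

end Pool.Agent.Results.MP_e6539c_co.ChainsOfShortEars
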