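import Mathlib
import Pool.Agent.R145.Cir.Main

set_option autoImplicit false

/-! # Tutte's conjecture on graphs without a Petersen minor: circumference at most eleven

A finite graph, loops and parallel edges allowed, has vertex set `V` and edge set `E`; the ends of
the edge `e` are `src e` and `dst e`.

Proof.  A minimal counterexample (for contracting and deleting edges) has no circuits with fewer than
five edges, no vertex with fewer than three neighbours and no cut vertex.  Let `K` be a longest
circuit, with at most eleven vertices.  By comparison with the circuits that use paths outside `K`,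
no edge has both ends outside `K`, and at most two vertices are outside `K`.  So the graph has at most
thirteen vertices with edges, and the theorem on sixteen vertices of odd degree applies. -/

namespace Pool.Agent.Results.MP_e6539c_co.Circumference

open Finset

/-- the simple graph in which two distinct vertices are adjacent if an edge in `F` joins them -/
def under {V E : Type} (src dst : E → V) (F : Set E) : SimpleGraph V where
  Adj x y := x ≠ y ∧ ∃ e ∈ F, (src e = x ∧ dst e = y) ∨ (src e = y ∧ dst e = x)
  symm := ⟨fun _ _ h => ⟨h.1.symm, h.2.imp fun _ he => ⟨he.1, he.2.symm⟩⟩⟩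
  loopless := ⟨fun _ h => h.1 rfl⟩

/-- the edge `e` is an isthmus: its ends are not connected by the other edges -/
def IsIsthmus {V E : Type} (src dst : E → V) (e : E) : Prop :=
  ¬ (under src dst {e' | e' ≠ e}).Reachable (src e) (dst e)

/-- the Petersen graph is a minor: there are disjoint connected sets of vertices, one for each
two-element subset of `{0, 1, 2, 3, 4}`, and the sets for disjoint subsets are adjacent -/
def HasPetersenMinor {V E : Type} (src dst : E → V) : Prop :=
  ∃ B : {s : Finset (Fin 5) // s.card = 2} → Set V,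
    (∀ i, ((under src dst Set.univ).induce (B i)).Connected) ∧
    (∀ i j, i ≠ j → Disjoint (B i) (B j)) ∧
    (∀ i j : {s : Finset (Fin 5) // s.card = 2}, Disjoint i.1 j.1 →
      ∃ x ∈ B i, ∃ y ∈ B j, (under src dst Set.univ).Adj x y)

/-- `v 0, v 1, ..., v (n - 1)` are the vertices of a circuit with `n` edges (for `n ≥ 3`): they are
distinct, and `v i` and `v (i + 1)` are joined by an edge, also `v (n - 1)` and `v 0` -/
def IsCircuit {V E : Type} (src dst : E → V) (n : ℕ) (v : ℕ → V) : Prop :=
  (∀ i < n, ∀ j < n, v i = v j → i = j) ∧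
    ∀ i < n, (under src dst Set.univ).Adj (v i) (v ((i + 1) % n))

/-- the set of edges `C` is a cycle: all degrees are even, where a loop counts twice -/
def IsCycle {V E : Type} [DecidableEq V] (src dst : E → V) (C : Finset E) : Prop :=
  ∀ v, Even (∑ e ∈ C, ((if src e = v then 1 else 0) + (if dst e = v then 1 else 0)))

/-- **Theorem.** A graph without an isthmus, without a Petersen minor and without circuits of length
greater than eleven is the union of two cycles. -/
theorem result (V E : Type) [Fintype V] [DecidableEq V] [Fintype E] [DecidableEq E]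
    (src dst : E → V) (hI : ∀ e, ¬ IsIsthmus src dst e) (hP : ¬ HasPetersenMinor src dst)
    (hL : ∀ n, 11 < n → ∀ v, ¬ IsCircuit src dst n v) :
    ∃ C₁ C₂ : Finset E, IsCycle src dst C₁ ∧ IsCycle src dst C₂ ∧ C₁ ∪ C₂ = univ := by
  classical
  -- no cut with one edge
  have hcut : ∀ Y, (TH499.TF.dlt src dst Y).card ≠ 1 := by
    intro Y hY
    obtain ⟨e, he⟩ := card_eq_one.mp hY
    apply hI e
    intro hr
    have hstay : ∀ x y, (under src dst {e' | e' ≠ e}).Reachable x y → (x ∈ Y ↔ y ∈ Y) := by
      rintro x y ⟨p⟩
      induction p with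
      | nil => exact Iff.rfl
      | cons hadj _ ih =>
        refine Iff.trans ?_ ih
        obtain ⟨_, e', he', h1⟩ := hadj
        have hn : e' ∉ TH499.TF.dlt src dst Y := by
          rw [he, mem_singleton]; exact he'
        rw [TH499.TF.mem_dlt, not_not] at hn
        rcases h1 with ⟨h2, h3⟩ | ⟨h2, h3⟩
        · rw [h2, h3] at hn; exact hn
        · rw [h2, h3] at hn; exact hn.symm
    have hm : e ∈ TH499.TF.dlt src dst Y := by rw [he]; exact mem_singleton_self _
    rw [TH499.TF.mem_dlt] at hm
    exact hm (hstay _ _ hr)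
  -- no Petersen minor in terms of cuts
  have hPM : ¬ TH499.TF.PM src dst := by
    rintro ⟨S, h1, h2, h3⟩
    apply hP
    have hadj : ∀ {e x y}, x ≠ y → TH499.TF.Joins src dst e x y →
        (under src dst Set.univ).Adj x y := fun h hj => ⟨h, _, Set.mem_univ _, hj⟩
    have hne : ∀ i, (S i).Nonempty := by
      intro i
      obtain ⟨j, hj⟩ : ∃ j : {s : Finset (Fin 5) // s.card = 2}, Disjoint i.1 j.1 := by
        revert i; decide
      obtain ⟨e, x, y, hx, _⟩ := h3 i j hj
      exact ⟨x, hx⟩
    refine ⟨fun i => (S i : Set V), ?_, ?_, ?_⟩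
    · intro i
      obtain ⟨x0, hx0⟩ := hne i
      rw [SimpleGraph.connected_iff_exists_forall_reachable]
      refine ⟨⟨x0, hx0⟩, ?_⟩
      by_contra hcon
      push Not at hcon
      obtain ⟨⟨y0, hy0⟩, hy1⟩ := hcon
      obtain ⟨e, a, b, ha, hb, hbA, hj⟩ := h1 i
        ((S i).filter (fun x => ∃ h : x ∈ (S i : Set V),
          ((under src dst Set.univ).induce (S i : Set V)).Reachable ⟨x0, hx0⟩ ⟨x, h⟩))
        (filter_subset _ _) ⟨x0, mem_filter.mpr ⟨hx0, hx0, SimpleGraph.Reachable.refl _⟩⟩
        (fun h => by
          have h4 : y0 ∈ (S i).filter (fun x => ∃ h : x ∈ (S i : Set V),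
              ((under src dst Set.univ).induce (S i : Set V)).Reachable ⟨x0, hx0⟩ ⟨x, h⟩) := by
            rw [h]; exact hy0
          obtain ⟨_, _, h5⟩ := mem_filter.mp h4
          exact hy1 h5)
      apply hbA
      rw [mem_filter] at ha ⊢
      obtain ⟨ha1, ha2, ha3⟩ := ha
      refine ⟨hb, hb, ha3.trans ?_⟩
      apply SimpleGraph.Adj.reachable
      have hab : a ≠ b := fun h => hbA (mem_filter.mpr ⟨hb, h ▸ ⟨ha2, ha3⟩⟩)
      exact hadj hab hj
    · intro i j hij
      exact disjoint_coe.mpr (h2 i j hij)
    · intro i j hij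
      obtain ⟨e, x, y, hx, hy, hj⟩ := h3 i j hij
      refine ⟨x, hx, y, hy, hadj ?_ hj⟩
      rintro rfl
      exact disjoint_left.mp (h2 i j (TH499.TF.pr_ne i j hij)) hx hy
  -- circuits as lists
  have hC11 : ∀ l, R145.Cir.Ci (R145.Cir.GA src dst) l → l.length ≤ 11 := by
    intro l hl
    by_contra hcon
    push Not at hcon
    have hpos : 0 < l.length := by omega
    refine hL l.length hcon (fun i => l.getD i (l[0]'hpos)) ⟨?_, ?_⟩
    · intro i hi j hj hij
      simp only [List.getD_eq_getElem?_getD, List.getElem?_eq_getElem hi,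
        List.getElem?_eq_getElem hj, Option.getD_some] at hij
      exact (List.Nodup.getElem_inj_iff hl.1.1).mp hij
    · intro i hi
      have hj : (i + 1) % l.length < l.length := Nat.mod_lt _ hpos
      simp only [List.getD_eq_getElem?_getD, List.getElem?_eq_getElem hi,
        List.getElem?_eq_getElem hj, Option.getD_some]
      have h1 := R145.Cir.adj_ix hl (List.getElem?_eq_getElem hi) (List.getElem?_eq_getElem hj) (by
        unfold R145.Cir.Ai
        rcases Nat.lt_or_ge (i + 1) l.length with h | h
        · left; exact Nat.mod_eq_of_lt h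
        · right; right; left
          have : i + 1 = l.length := by omega
          exact ⟨this, by rw [this, Nat.mod_self]⟩)
      obtain ⟨h2, e, h3⟩ := h1
      exact ⟨h2, e, Set.mem_univ _, h3⟩
  obtain ⟨f, hf, hd⟩ := R145.Cir.cl_nz _ src dst rfl ⟨hC11, hPM⟩ hcut
  have h01 : ∀ a : ZMod 2, a ≠ 0 → a = 1 := by decide
  refine ⟨univ.filter (fun e => (f e).1 ≠ 0), univ.filter (fun e => (f e).2 ≠ 0), ?_, ?_, ?_⟩
  · intro v
    rw [← ZMod.natCast_eq_zero_iff_even]
    have h := congrArg Prod.fst (hd v)
    unfold TH499.TF.dv TH499.TF.jn at h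
    rw [Prod.fst_sum] at h
    refine Eq.trans ?_ h
    rw [sum_filter]
    push_cast
    refine sum_congr rfl fun e _ => ?_
    by_cases h1 : (f e).1 = 0
    · rw [if_neg (not_not.mpr h1)]
      split_ifs <;> simp [h1]
    · rw [if_pos h1]
      split_ifs <;> simp [h01 _ h1]
  · intro v
    rw [← ZMod.natCast_eq_zero_iff_even]
    have h := congrArg Prod.snd (hd v)
    unfold TH499.TF.dv TH499.TF.jn at h
    rw [Prod.snd_sum] at h
    refine Eq.trans ?_ h
    rw [sum_filter]
    push_cast
    refine sum_congr rfl fun e _ => ?_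
    by_cases h1 : (f e).2 = 0
    · rw [if_neg (not_not.mpr h1)]
      split_ifs <;> simp [h1]
    · rw [if_pos h1]
      split_ifs <;> simp [h01 _ h1]
  · ext e
    simp only [mem_union, mem_filter, mem_univ, true_and, iff_true]
    by_contra hcon
    push Not at hcon
    exact hf e (Prod.ext hcon.1 hcon.2)

end Pool.Agent.Results.MP_e6539c_co.Circumference
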