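import Pool.Agent.TH362.TF.Multi
import Pool.Agent.TH362.TF.Contr
import Pool.Agent.TH362.TF.Cyc
import Pool.Agent.R140.PK.Lift
import Pool.Agent.R140.PK.Cert8

/-!
# Graphs without induced paths with eight vertices (MP_e6539c_co)

Let `G` be a finite multigraph without isthmuses which has no induced path with eight vertices.
Then the edge set of `G` is the union of two cycles, or a component of `G` can be contracted to the
Petersen graph.  In particular the edge set is the union of two cycles if there is no Petersen
minor.  The order, the degrees, the connectivity and the width parameters of `G` are arbitrary.

Proof.  Let `H` be obtained from `G` by contraction of disjoint connected vertex sets, without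
nowhere-zero flow over the group of order four and without Petersen quotient, and with as few edges
(apart from loops) as possible.

(1) `H` has no circuits with two, three or four edges, and no vertices with exactly one or two
neighbours: the contraction of such a circuit, or of an edge at such a vertex, has a flow, and it can
be extended (for circuits with four edges after an exchange along a path).  At most one component of
`H` has edges apart from loops: two flows, for the contractions of two components, can be combined.
`H` has at least 18 vertices of odd degree, by a theorem of the starting library (`TH362/TF`).

(2) `H` has no induced path with eight vertices.  Such a path gives eight disjoint connected vertex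
sets of `G`; a shortest path in their union from the first one to the last one meets all of them and
is induced.

(3) A connected graph without circuits of length at most four, with all degrees at least three and
without induced paths with eight vertices has at most 17 vertices (in fact 10, 13 or 14).  This is
shown by a search (`R140/PK/Check`): an induced subgraph is extended by a neighbour of a vertex which
has at most two neighbours so far, in all possible ways, until an induced path with eight vertices
appears.  The paths are given in a certificate, which is checked by the kernel.
-/

set_option autoImplicit false

namespace Pool.Agent.Results.MP_e6539c_co.InducedPathEight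

open Pool.Agent.TH362.Multi Pool.Agent.R140.PK

/-- Let `s t : E → V` be a finite multigraph without isthmuses which has no induced path with eight
vertices: there are no eight different vertices `p 0, ..., p 7` such that `p i` and `p j` are joined
by an edge if and only if `i` and `j` differ by one. Then the edge set is the union of two cycles, or
some component can be contracted to the Petersen graph.  In particular the edge set is the union of
two cycles if there is no Petersen minor. -/
theorem result (V E : Type) [Finite V] [Finite E] (s t : E → V)
    (hb : ∀ e, ¬ Isthmus s t e)
    (hp : ¬ ∃ p : Fin 8 → V, Function.Injective p ∧ ∀ i j : Fin 8, i < j →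
      ((∃ e, (s e = p i ∧ t e = p j) ∨ (s e = p j ∧ t e = p i)) ↔ i.val + 1 = j.val)) :
    (∃ C₁ C₂ : Set E, IsCycle s t C₁ ∧ IsCycle s t C₂ ∧ C₁ ∪ C₂ = Set.univ) ∨
      ContractsToPetersen s t := by
  classical
  have := Fintype.ofFinite V
  have := Fintype.ofFinite E
  have hn := TH362.TF.n1_of s t hb
  by_cases h1 : TH362.TF.NZ s t Finset.univ
  · exact Or.inl (TH362.TF.two_cycles s t h1)
  by_cases h2 : TH362.TF.PQ s t Finset.univ
  · exact Or.inr (TH362.TF.contracts s t hn h2)
  exfalso
  obtain ⟨π, hπ, hM⟩ := exists_Mc s t Finset.univ hn h1 h2
  refine hM.long 8 25 data8 cert8 ?_
  intro q hq hq'
  obtain ⟨p, hp1, hp2⟩ := lift_path hπ (by norm_num) q hq hq'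
  refine hp ⟨p, hp1, fun i j hij => ?_⟩
  rw [← hp2 i j hij]
  constructor
  · rintro ⟨e, he⟩
    exact ⟨fun h => absurd (hp1 h) (ne_of_gt hij), e, Finset.mem_univ e, he⟩
  · rintro ⟨_, e, _, he⟩
    exact ⟨e, he⟩

end Pool.Agent.Results.MP_e6539c_co.InducedPathEight
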