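import Pool.Agent.R129.Four.Bag

set_option autoImplicit false

/-! # Tutte's conjecture on graphs without a Petersen minor: bags with small independence number

Let `G` be a multigraph without an isthmus and without a Petersen minor which has a tree
decomposition such that any six vertices in a bag include all vertices of some circuit of `G` with
two, three or four edges.  Then `G` is the union of two cycles, i.e. it has a nowhere-zero 4-flow.
In particular this holds for all such graphs of tree-independence number at most two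
(`treeIndependence`: all bags have independence number at most two), and if every bag is covered by
`a` cliques and `b` further vertices with `2 a + b ≤ 5` (`cliqueBags`).  The size of the bags, the
treewidth and the order are arbitrary.

Proof.  The class is closed under contractions (not under deletions): vertices of a bag of `G / e`
can be lifted to vertices of the corresponding bag of `G`, and circuits through the lifted vertices
survive.  In a counterexample with as few edges as possible there are no circuits with two, three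
or four edges (library `TH499/TF`, where only contractions are used), so all bags have at most five
elements.  The library settles treewidth at most four.

A finite graph, loops and parallel edges allowed, has vertex set `V` and edge set `E`; the ends of
the edge `e` are `src e` and `dst e`. -/

namespace Pool.Agent.Results.MP_e6539c_co.TreeIndependenceTwo

open Finset

/-- the simple graph in which two distinct vertices are adjacent if an edge in `F` joins them -/
def under {V E : Type} (src dst : E → V) (F : Set E) : SimpleGraph V where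
  Adj x y := x ≠ y ∧ ∃ e ∈ F, (src e = x ∧ dst e = y) ∨ (src e = y ∧ dst e = x)
  symm := ⟨fun _ _ h => ⟨h.1.symm, h.2.imp fun _ he => ⟨he.1, he.2.symm⟩⟩⟩
  loopless := ⟨fun _ h => h.1 rfl⟩

/-- the edge `e` is an isthmus: its ends are not connected by the other edges -/
def IsIsthmus {V E : Type} (src dst : E → V) (e : E) : Prop :=
  ¬ (under src dst {e' | e' ≠ e}).Reachable (src e) (dst e)

/-- the Petersen graph is a minor: there are disjoint connected sets of vertices, one for each
two-element subset of `{0, 1, 2, 3, 4}`, and the sets for disjoint subsets are adjacent -/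
def HasPetersenMinor {V E : Type} (src dst : E → V) : Prop :=
  ∃ B : {s : Finset (Fin 5) // s.card = 2} → Set V,
    (∀ i, ((under src dst Set.univ).induce (B i)).Connected) ∧
    (∀ i j, i ≠ j → Disjoint (B i) (B j)) ∧
    (∀ i j : {s : Finset (Fin 5) // s.card = 2}, Disjoint i.1 j.1 →
      ∃ x ∈ B i, ∃ y ∈ B j, (under src dst Set.univ).Adj x y)

/-- tree decomposition of the graph, with bags `bag i` for the nodes `i` of the tree `T` -/
def IsTreeDecomposition {V E ι : Type} (src dst : E → V) (T : SimpleGraph ι)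
    (bag : ι → Finset V) : Prop :=
  T.IsTree ∧ (∀ v, ∃ i, v ∈ bag i) ∧ (∀ e, ∃ i, src e ∈ bag i ∧ dst e ∈ bag i) ∧
    ∀ (i j : ι) (p : T.Walk i j), p.IsPath → ∀ k ∈ p.support, ∀ v, v ∈ bag i → v ∈ bag j →
      v ∈ bag k

/-- The edge `e` joins `x` and `y`. -/
def Joins {V E : Type} (src dst : E → V) (e : E) (x y : V) : Prop :=
  (src e = x ∧ dst e = y) ∨ (src e = y ∧ dst e = x)

/-- All vertices of some circuit with `k + 2 = 2, 3` or `4` edges are in `S`: the vertices `v i` are
distinct, the edges `e i` are distinct, and `e i` joins `v i` and `v (i + 1)` (modulo `k + 2`). -/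
def HasShortCircuit {V E : Type} (src dst : E → V) (S : Finset V) : Prop :=
  ∃ k, k ≤ 2 ∧ ∃ (v : Fin (k + 2) → V) (e : Fin (k + 2) → E), Function.Injective v ∧
    Function.Injective e ∧ ∀ i, v i ∈ S ∧ Joins src dst (e i) (v i) (v (i + 1))

/-- the set of edges `C` is a cycle: all degrees are even, where a loop counts twice -/
def IsCycle {V E : Type} [DecidableEq V] (src dst : E → V) (C : Finset E) : Prop :=
  ∀ v, Even (∑ e ∈ C, ((if src e = v then 1 else 0) + (if dst e = v then 1 else 0)))

/-- **Theorem.** A graph without an isthmus and without a Petersen minor is the union of two cycles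
if it has a tree decomposition such that any six vertices of a bag include all vertices of some
circuit with two, three or four edges. -/
theorem result (V E : Type) [Fintype V] [DecidableEq V] [Fintype E] [DecidableEq E]
    (src dst : E → V) (hI : ∀ e, ¬ IsIsthmus src dst e) (hP : ¬ HasPetersenMinor src dst)
    (ι : Type) [Fintype ι] (T : SimpleGraph ι) (bag : ι → Finset V)
    (hT : IsTreeDecomposition src dst T bag)
    (hS : ∀ i, ∀ S ⊆ bag i, S.card = 6 → HasShortCircuit src dst S) :
    ∃ C₁ C₂ : Finset E, IsCycle src dst C₁ ∧ IsCycle src dst C₂ ∧ C₁ ∪ C₂ = univ := by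
  classical
  -- no cut with one edge
  have hcut : ∀ Y, (TH499.TF.dlt src dst Y).card ≠ 1 := by
    intro Y hY
    obtain ⟨e, he⟩ := card_eq_one.mp hY
    apply hI e
    intro hr
    have hstay : ∀ x y, (under src dst {e' | e' ≠ e}).Reachable x y → (x ∈ Y ↔ y ∈ Y) := by
      rintro x y ⟨p⟩
      induction p with
      | nil => exact Iff.rfl
      | cons hadj _ ih =>
        refine Iff.trans ?_ ih
        obtain ⟨_, e', he', h1⟩ := hadj
        have hn : e' ∉ TH499.TF.dlt src dst Y := by
          rw [he, mem_singleton]; exact he'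
        rw [TH499.TF.mem_dlt, not_not] at hn
        rcases h1 with ⟨h2, h3⟩ | ⟨h2, h3⟩
        · rw [h2, h3] at hn; exact hn
        · rw [h2, h3] at hn; exact hn.symm
    have hm : e ∈ TH499.TF.dlt src dst Y := by rw [he]; exact mem_singleton_self _
    rw [TH499.TF.mem_dlt] at hm
    exact hm (hstay _ _ hr)
  -- no Petersen minor in terms of cuts
  have hPM : ¬ TH499.TF.PM src dst := by
    rintro ⟨S, h1, h2, h3⟩
    apply hP
    have hadj : ∀ {e x y}, x ≠ y → TH499.TF.Joins src dst e x y →
        (under src dst Set.univ).Adj x y := fun h hj => ⟨h, _, Set.mem_univ _, hj⟩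
    have hne : ∀ i, (S i).Nonempty := by
      intro i
      obtain ⟨j, hj⟩ : ∃ j : {s : Finset (Fin 5) // s.card = 2}, Disjoint i.1 j.1 := by
        revert i; decide
      obtain ⟨e, x, y, hx, _⟩ := h3 i j hj
      exact ⟨x, hx⟩
    refine ⟨fun i => (S i : Set V), ?_, ?_, ?_⟩
    · intro i
      obtain ⟨x0, hx0⟩ := hne i
      rw [SimpleGraph.connected_iff_exists_forall_reachable]
      refine ⟨⟨x0, hx0⟩, ?_⟩
      by_contra hcon
      push Not at hcon
      obtain ⟨⟨y0, hy0⟩, hy1⟩ := hcon
      obtain ⟨e, a, b, ha, hb, hbA, hj⟩ := h1 i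
        ((S i).filter (fun x => ∃ h : x ∈ (S i : Set V),
          ((under src dst Set.univ).induce (S i : Set V)).Reachable ⟨x0, hx0⟩ ⟨x, h⟩))
        (filter_subset _ _) ⟨x0, mem_filter.mpr ⟨hx0, hx0, SimpleGraph.Reachable.refl _⟩⟩
        (fun h => by
          have h4 : y0 ∈ (S i).filter (fun x => ∃ h : x ∈ (S i : Set V),
              ((under src dst Set.univ).induce (S i : Set V)).Reachable ⟨x0, hx0⟩ ⟨x, h⟩) := by
            rw [h]; exact hy0
          obtain ⟨_, _, h5⟩ := mem_filter.mp h4
          exact hy1 h5)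
      apply hbA
      rw [mem_filter] at ha ⊢
      obtain ⟨ha1, ha2, ha3⟩ := ha
      refine ⟨hb, hb, ha3.trans ?_⟩
      apply SimpleGraph.Adj.reachable
      have hab : a ≠ b := fun h => hbA (mem_filter.mpr ⟨hb, h ▸ ⟨ha2, ha3⟩⟩)
      exact hadj hab hj
    · intro i j hij
      exact disjoint_coe.mpr (h2 i j hij)
    · intro i j hij
      obtain ⟨e, x, y, hx, hy, hj⟩ := h3 i j hij
      refine ⟨x, hx, y, hy, hadj ?_ hj⟩
      rintro rfl
      exact disjoint_left.mp (h2 i j (TH499.TF.pr_ne i j hij)) hx hy
  -- tree decomposition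
  obtain ⟨t1, _, t2, t3⟩ := hT
  have hTD : Pool.Agent.R129.Four.HasT src dst := Pool.Agent.R129.Four.HasT.of_tree t1 t3 t2
    (fun i S hSX hno => by
      by_contra hcon
      push Not at hcon
      obtain ⟨S', hS', hcard⟩ := Finset.exists_subset_card_eq (show 6 ≤ S.card by omega)
      obtain ⟨k, hk, v, e, hv, he, hA⟩ := hS i S' (hS'.trans hSX) hcard
      exact hno ⟨k, hk, v, e, hv, he, fun i => ⟨hS' (hA i).1, (hA i).2⟩⟩)
  obtain ⟨f, hf, hd⟩ := Pool.Agent.R129.Four.nz_of_HasT hTD hPM hcut
  have h01 : ∀ a : ZMod 2, a ≠ 0 → a = 1 := by decide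
  refine ⟨univ.filter (fun e => (f e).1 ≠ 0), univ.filter (fun e => (f e).2 ≠ 0), ?_, ?_, ?_⟩
  · intro v
    rw [← ZMod.natCast_eq_zero_iff_even]
    have h := congrArg Prod.fst (hd v)
    unfold TH499.TF.dv TH499.TF.jn at h
    rw [Prod.fst_sum] at h
    refine Eq.trans ?_ h
    rw [sum_filter]
    push_cast
    refine sum_congr rfl fun e _ => ?_
    by_cases h1 : (f e).1 = 0
    · rw [if_neg (not_not.mpr h1)]
      split_ifs <;> simp [h1]
    · rw [if_pos h1]
      split_ifs <;> simp [h01 _ h1]
  · intro v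
    rw [← ZMod.natCast_eq_zero_iff_even]
    have h := congrArg Prod.snd (hd v)
    unfold TH499.TF.dv TH499.TF.jn at h
    rw [Prod.snd_sum] at h
    refine Eq.trans ?_ h
    rw [sum_filter]
    push_cast
    refine sum_congr rfl fun e _ => ?_
    by_cases h1 : (f e).2 = 0
    · rw [if_neg (not_not.mpr h1)]
      split_ifs <;> simp [h1]
    · rw [if_pos h1]
      split_ifs <;> simp [h01 _ h1]
  · ext e
    simp only [mem_union, mem_filter, mem_univ, true_and, iff_true]
    by_contra hcon
    push Not at hcon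
    exact hf e (Prod.ext hcon.1 hcon.2)

/-- Six vertices without a circuit with at most four edges include three independent ones. -/
theorem three_independent {V E : Type} [DecidableEq V] (src dst : E → V) (S : Finset V)
    (hS : S.card = 6) (hno : ¬ HasShortCircuit src dst S) :
    ∃ I ⊆ S, I.card = 3 ∧ ∀ a ∈ I, ∀ b ∈ I, a ≠ b → ∀ e, ¬ Joins src dst e a b := by
  classical
  let A : V → V → Prop := fun a b => ∃ e, Joins src dst e a b
  have hsym : ∀ a b, A a b → A b a := fun a b ⟨e, he⟩ => ⟨e, he.symm⟩
  have htri : ∀ a ∈ S, ∀ b ∈ S, ∀ c ∈ S, a ≠ b → b ≠ c → c ≠ a → A a b → A b c → A c a →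
      False := by
    rintro a ha b hb c hc hab hbc hca ⟨e1, h1⟩ ⟨e2, h2⟩ ⟨e3, h3⟩
    apply hno
    have key : ∀ {x y z w : V} {e : E}, Joins src dst e x y → Joins src dst e z w →
        (x = z ∧ y = w) ∨ (x = w ∧ y = z) := by
      rintro x y z w e (⟨p, q⟩ | ⟨p, q⟩) (⟨r, s⟩ | ⟨r, s⟩)
      · exact Or.inl ⟨p.symm.trans r, q.symm.trans s⟩
      · exact Or.inr ⟨p.symm.trans r, q.symm.trans s⟩
      · exact Or.inr ⟨q.symm.trans s, p.symm.trans r⟩
      · exact Or.inl ⟨q.symm.trans s, p.symm.trans r⟩
    have n12 : e1 ≠ e2 := by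
      rintro rfl
      rcases key h1 h2 with ⟨p, _⟩ | ⟨p, _⟩
      · exact hab p
      · exact hca p.symm
    have n13 : e1 ≠ e3 := by
      rintro rfl
      rcases key h1 h3 with ⟨p, _⟩ | ⟨_, p⟩
      · exact hca p.symm
      · exact hbc p
    have n23 : e2 ≠ e3 := by
      rintro rfl
      rcases key h2 h3 with ⟨p, _⟩ | ⟨p, _⟩
      · exact hbc p
      · exact hab p.symm
    refine ⟨1, by norm_num, ![a, b, c], ![e1, e2, e3], ?_, ?_, fun i => ⟨?_, ?_⟩⟩
    · intro i j hij
      fin_cases i <;> fin_cases j <;> simp_all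
    · intro i j hij
      fin_cases i <;> fin_cases j <;> simp_all [eq_comm]
    · fin_cases i
      · exact ha
      · exact hb
      · exact hc
    · fin_cases i
      · exact h1
      · exact h2
      · exact h3
  -- a vertex `x`; three neighbours or three others
  obtain ⟨x, hx⟩ : S.Nonempty := card_pos.1 (by omega)
  have hsplit := card_filter_add_card_filter_not (s := S.erase x) (fun y => A x y)
  rw [card_erase_of_mem hx, hS] at hsplit
  by_cases h3 : 3 ≤ ((S.erase x).filter (fun y => A x y)).card
  · obtain ⟨I, hI, hI3⟩ := exists_subset_card_eq h3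
    refine ⟨I, fun y hy => mem_of_mem_erase (mem_filter.1 (hI hy)).1, hI3, ?_⟩
    intro a ha b hb hab e he
    have ha' := mem_filter.1 (hI ha)
    have hb' := mem_filter.1 (hI hb)
    exact htri x hx a (mem_of_mem_erase ha'.1) b (mem_of_mem_erase hb'.1)
      (ne_of_mem_erase ha'.1).symm hab (ne_of_mem_erase hb'.1) ha'.2 ⟨e, he⟩ (hsym _ _ hb'.2)
  · have h3' : 3 ≤ ((S.erase x).filter (fun y => ¬ A x y)).card := by omega
    obtain ⟨I, hI, hI3⟩ := exists_subset_card_eq h3'
    obtain ⟨a, b, c, hab, hac, hbc, rfl⟩ := card_eq_three.1 hI3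
    have hmem : ∀ y ∈ ({a, b, c} : Finset V), y ∈ S ∧ y ≠ x ∧ ¬ A x y := by
      intro y hy
      have := mem_filter.1 (hI hy)
      exact ⟨mem_of_mem_erase this.1, ne_of_mem_erase this.1, this.2⟩
    obtain ⟨ha, hax, hna⟩ := hmem a (by simp)
    obtain ⟨hb, hbx, hnb⟩ := hmem b (by simp)
    obtain ⟨hc, hcx, hnc⟩ := hmem c (by simp)
    have hpair : ∀ u v : V, u ∈ S → v ∈ S → u ≠ x → v ≠ x → u ≠ v → ¬ A x u → ¬ A x v →
        ¬ A u v → ∃ I ⊆ S, I.card = 3 ∧ ∀ a ∈ I, ∀ b ∈ I, a ≠ b → ∀ e, ¬ Joins src dst e a b := by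
      intro u v hu hv hux hvx huv h1 h2 h4
      refine ⟨{x, u, v}, ?_, card_eq_three.2 ⟨x, u, v, hux.symm, hvx.symm, huv, rfl⟩, ?_⟩
      · intro y hy
        simp only [mem_insert, mem_singleton] at hy
        rcases hy with rfl | rfl | rfl
        · exact hx
        · exact hu
        · exact hv
      · intro p hp q hq hpq e he
        have hA : A p q := ⟨e, he⟩
        simp only [mem_insert, mem_singleton] at hp hq
        rcases hp with rfl | rfl | rfl <;> rcases hq with rfl | rfl | rfl
        · exact hpq rfl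
        · exact h1 hA
        · exact h2 hA
        · exact h1 (hsym _ _ hA)
        · exact hpq rfl
        · exact h4 hA
        · exact h2 (hsym _ _ hA)
        · exact h4 (hsym _ _ hA)
        · exact hpq rfl
    by_cases c1 : A a b
    · by_cases c2 : A b c
      · exact hpair a c ha hc hax hcx hac hna hnc (fun h => htri a ha b hb c hc hab hbc hac.symm
          c1 c2 (hsym _ _ h))
      · exact hpair b c hb hc hbx hcx hbc hnb hnc c2
    · exact hpair a b ha hb hax hbx hab hna hnb c1

/-- Tree-independence number at most two. -/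
theorem treeIndependence (V E : Type) [Fintype V] [DecidableEq V] [Fintype E] [DecidableEq E]
    (src dst : E → V) (hI : ∀ e, ¬ IsIsthmus src dst e) (hP : ¬ HasPetersenMinor src dst)
    (ι : Type) [Fintype ι] (T : SimpleGraph ι) (bag : ι → Finset V)
    (hT : IsTreeDecomposition src dst T bag)
    (hA : ∀ i, ∀ I ⊆ bag i, (∀ a ∈ I, ∀ b ∈ I, a ≠ b → ∀ e, ¬ Joins src dst e a b) →
      I.card ≤ 2) :
    ∃ C₁ C₂ : Finset E, IsCycle src dst C₁ ∧ IsCycle src dst C₂ ∧ C₁ ∪ C₂ = univ := by
  refine result V E src dst hI hP ι T bag hT (fun i S hS h6 => ?_)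
  by_contra hno
  obtain ⟨I, h1, h2, h3⟩ := three_independent src dst S h6 hno
  have := hA i I (h1.trans hS) h3
  omega

/-- Every bag is covered by `a` cliques and `b` further vertices, where `2 a + b ≤ 5`. -/
theorem cliqueBags (V E : Type) [Fintype V] [DecidableEq V] [Fintype E] [DecidableEq E]
    (src dst : E → V) (hI : ∀ e, ¬ IsIsthmus src dst e) (hP : ¬ HasPetersenMinor src dst)
    (ι : Type) [Fintype ι] (T : SimpleGraph ι) (bag : ι → Finset V)
    (hT : IsTreeDecomposition src dst T bag)
    (hQ : ∀ i, ∃ (a : ℕ) (Q : Fin a → Finset V) (R : Finset V), 2 * a + R.card ≤ 5 ∧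
      (∀ j, ∀ x ∈ Q j, ∀ y ∈ Q j, x ≠ y → ∃ e, Joins src dst e x y) ∧
      ∀ x ∈ bag i, x ∈ R ∨ ∃ j, x ∈ Q j) :
    ∃ C₁ C₂ : Finset E, IsCycle src dst C₁ ∧ IsCycle src dst C₂ ∧ C₁ ∪ C₂ = univ := by
  refine result V E src dst hI hP ι T bag hT (fun i S hSX hcard => ?_)
  obtain ⟨a, Q, R, hle, hcl, hcov⟩ := hQ i
  by_cases hj : ∃ j, 3 ≤ (S ∩ Q j).card
  · obtain ⟨j, hj⟩ := hj
    obtain ⟨x, hx, y, hy, z, hz, hxy, hxz, hyz⟩ := Finset.two_lt_card.1
      (show 2 < (S ∩ Q j).card by omega)
    rw [Finset.mem_inter] at hx hy hz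
    obtain ⟨e1, h1⟩ := hcl j x hx.2 y hy.2 hxy
    obtain ⟨e2, h2⟩ := hcl j y hy.2 z hz.2 hyz
    obtain ⟨e3, h3⟩ := hcl j z hz.2 x hx.2 hxz.symm
    have key : ∀ {x y z w : V} {e : E}, Joins src dst e x y → Joins src dst e z w →
        (x = z ∧ y = w) ∨ (x = w ∧ y = z) := by
      rintro x y z w e (⟨p, q⟩ | ⟨p, q⟩) (⟨r, s⟩ | ⟨r, s⟩)
      · exact Or.inl ⟨p.symm.trans r, q.symm.trans s⟩
      · exact Or.inr ⟨p.symm.trans r, q.symm.trans s⟩
      · exact Or.inr ⟨q.symm.trans s, p.symm.trans r⟩
      · exact Or.inl ⟨q.symm.trans s, p.symm.trans r⟩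
    have n12 : e1 ≠ e2 := by
      rintro rfl
      rcases key h1 h2 with ⟨p, _⟩ | ⟨p, _⟩
      · exact hxy p
      · exact hxz p
    have n13 : e1 ≠ e3 := by
      rintro rfl
      rcases key h1 h3 with ⟨p, _⟩ | ⟨_, p⟩
      · exact hxz p
      · exact hyz p
    have n23 : e2 ≠ e3 := by
      rintro rfl
      rcases key h2 h3 with ⟨p, _⟩ | ⟨p, _⟩
      · exact hyz p
      · exact hxy p.symm
    refine ⟨1, by norm_num, ![x, y, z], ![e1, e2, e3], ?_, ?_, fun i => ⟨?_, ?_⟩⟩
    · intro i j hij
      fin_cases i <;> fin_cases j <;> simp_all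
    · intro i j hij
      fin_cases i <;> fin_cases j <;> simp_all [eq_comm]
    · fin_cases i
      · exact hx.1
      · exact hy.1
      · exact hz.1
    · fin_cases i
      · exact h1
      · exact h2
      · exact h3
  · exfalso
    push Not at hj
    have h1 : S ⊆ R ∪ Finset.univ.biUnion (fun j => S ∩ Q j) := by
      intro x hx
      rcases hcov x (hSX hx) with h | ⟨j, h⟩
      · exact Finset.mem_union_left _ h
      · exact Finset.mem_union_right _ (Finset.mem_biUnion.2 ⟨j, Finset.mem_univ _,
          Finset.mem_inter.2 ⟨hx, h⟩⟩)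
    have h2 := (Finset.card_le_card h1).trans (Finset.card_union_le _ _)
    have h3 : (Finset.univ.biUnion (fun j => S ∩ Q j)).card ≤ a * 2 := by
      refine Finset.card_biUnion_le.trans ?_
      calc ∑ j : Fin a, (S ∩ Q j).card ≤ ∑ _j : Fin a, 2 :=
            Finset.sum_le_sum fun j _ => by have := hj j; omega
        _ = a * 2 := by simp
    omega

end Pool.Agent.Results.MP_e6539c_co.TreeIndependenceTwo
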